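import Pool.Agent.BPN.St.BrC

/-!
# `BP<n>` is determined by its `p`-completion among connective spectra with the same homotopy groups

Spectra are modelled by Kan's semisimplicial spectra (D. M. Kan, Semisimplicial spectra, Illinois J.
Math. 7 (1963)): `Spec` are pointed-set spectra, `GSpec` group spectra (written additively).  The
homotopy category of group spectra is the stable homotopy category; its morphisms `G → H` are
represented by the maps `Mor G.U H.U` of the underlying pointed-set spectra.

* `IsZ`, `IsB` : cycles and boundaries; the homotopy group `π_q G` is the quotient.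
* `HasPi G q A` : `π_q G ≅ A`; `Connective G` : `π_q G = 0` for `q < 0`.
* `WeakEquiv G H` : a zigzag `G ← E → H` of homomorphisms which are isomorphisms on all `π_q`.
* `IsPCompletion p c` : the homotopy groups of the target of `c` are `p`-adically complete and `c` induces
  isomorphisms on `π_q / p^k` for all `q`, `k`; for spectra with finitely generated homotopy groups over
  `Z_(p)` (as in the theorem) this says that `c` is the `p`-completion.
* `EM p k` : the Eilenberg-MacLane spectrum `Σ^k H F_p`; maps `X → EM p k` are the normalised
  `k`-cocycles of `X` with values in `F_p`, `cls` is this cocycle, `IsCob` says that a function is a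
  coboundary, so that maps modulo coboundaries form `H^k(X; F_p)`.
* `Op p k` : operations of degree `k` in mod `p` cohomology, maps `EM p 0 → EM p k`.
* `IsDeriv Q` : `Q (x y) = (Q x) y ± x (Q y)` for cup products in the cohomology of simplicial sets.
* `IsCyc Q Y u` : `u` generates `H^*(Y; F_p)` over the Steenrod algebra `A` and its annihilator is the
  left ideal `A (Q_0, .., Q_n)`.
* `IsBPn p n B` : `B` is connective, `π_q B ≅ Z_(p)[v_1, .., v_n]_q`, and
  `H^*(B; F_p) ≅ A / A (Q_0, .., Q_n)`, where `Q_i` is a nonzero derivation of degree `2 p^i - 1`
  (the Milnor primitive, unique up to a unit).  These are the standard properties of `BP<n>`.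
-/

namespace Pool.Agent.Results.MP_d9f6ea_gt.RecoverFromCompletion

open BPN.St

/-- Let `B` be a form of `BP<n>` (in particular `BP<n>` itself) and let `X` be a connective spectrum with
`π_q X ≅ π_q BP<n>` for all `q`.  If the `p`-completions `Z₁` of `B` and `Z₂` of `X` are weakly
equivalent, then `X` and `B` are weakly equivalent. -/
theorem result (p : ℕ) [Fact p.Prime] (n : ℕ) (B X Z₁ Z₂ : GSpec) (hB : IsBPn p n B)
    (hX : Connective X) (hπ : ∀ q, HasPi X q (BPnPi p n q))
    (b : Mor B.U Z₁.U) (hb : IsPCompletion p b) (x : Mor X.U Z₂.U) (hx : IsPCompletion p x)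
    (hZ : WeakEquiv Z₁ Z₂) : WeakEquiv X B :=
  BPN.St.main p n B X Z₁ Z₂ hB hX hπ b hb x hx hZ

end Pool.Agent.Results.MP_d9f6ea_gt.RecoverFromCompletion
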